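import Pool.Agent.AllRank.Good
import Pool.Agent.AllRank.MFive
import Pool.Agent.AllRank.MFour
import Pool.Agent.AllRank.Flip
import Pool.Agent.AllRank.FlipTwo
import Pool.Agent.AllRank.FlipNeg
import Pool.Agent.AllRank.FlipFour
import Pool.Agent.AllRank.FlipSwap
import Pool.Agent.AllRank.Conv
import Pool.Agent.AllRank.NormCrit
import Pool.Agent.AllRank.Rad
import Pool.Agent.AllRank.Three
import Pool.Agent.AllRank.Sqf

set_option autoImplicit false

open scoped NumberTheorySymbols

namespace Pool.Agent.Results.MP_4d0966_ag.Comparison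

open Pool.Agent.MP4d0966 Module

/-- The lattice-theoretic form of the criterion of Hassett and Kuznetsov (Addington and Thomas):
the lattice contains a hyperbolic plane `⟨e, f⟩`. -/
def HassettKuznetsov {N : Type*} [AddCommGroup N] (B : N →ₗ[ℤ] N →ₗ[ℤ] ℤ) : Prop :=
  ∃ e f : N, B e e = 0 ∧ B f f = 0 ∧ B e f = 1

/-- The lattice-theoretic form of the criterion of Galkin and Shinder (Addington): there is an
isotropic vector `w` with `(w, l1) = 1`. -/
def GalkinShinder {N : Type*} [AddCommGroup N] (B : N →ₗ[ℤ] N →ₗ[ℤ] ℤ) (l1 : N) : Prop :=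
  ∃ w : N, B w w = 0 ∧ B w l1 = 1

/-- The discriminant (the determinant of the Gram matrix) of a lattice of rank `4`. -/
noncomputable def disc {N : Type*} [AddCommGroup N] (B : N →ₗ[ℤ] N →ₗ[ℤ] ℤ)
    (b : Basis (Fin 4) ℤ N) : ℤ :=
  (Matrix.of fun i j => B (b i) (b j)).det

/-- `p` is not `2` modulo `3`, and the form on `N / p N` has a radical of dimension at least `2`:
it contains the independent classes of `u` and `v`. -/
def Frozen {N : Type*} [AddCommGroup N] (B : N →ₗ[ℤ] N →ₗ[ℤ] ℤ) (p : ℕ) : Prop :=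
  p % 3 ≠ 2 ∧ ∃ u v : N, (∀ x, (p : ℤ) ∣ B u x) ∧ (∀ x, (p : ℤ) ∣ B v x) ∧
    ∀ (i j : ℤ) (x : N), i • u + j • v = (p : ℤ) • x → (p : ℤ) ∣ i ∧ (p : ℤ) ∣ j

/-- The obstruction: the rank is `4`, the discriminant is `d³ t²` with `d > 1` odd and squarefree
and `4 ∣ t` if `d ≡ 3 (4)`, all prime factors of `d` are frozen, and there are a hyperbolic plane
`⟨e, f⟩` and an `m` orthogonal to it with `(m, m) = -2 k² ≠ 0`, such that `(e, l1)` is prime to
twice the discriminant and the Jacobi symbol `(d / |(e, l1)|)` is `-1`. -/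
def Obstruction {N : Type*} [AddCommGroup N] (B : N →ₗ[ℤ] N →ₗ[ℤ] ℤ) (l1 : N) : Prop :=
  ∃ (b : Basis (Fin 4) ℤ N) (d : ℕ) (t : ℤ),
    1 < d ∧ Odd d ∧ Squarefree d ∧ disc B b = (d : ℤ) ^ 3 * t ^ 2 ∧ (d % 4 = 3 → 4 ∣ t) ∧
    (∀ p : ℕ, p.Prime → p ∣ d → Frozen B p) ∧
    ∃ (e f m : N) (k : ℤ), B e e = 0 ∧ B f f = 0 ∧ B e f = 1 ∧
      B m e = 0 ∧ B m f = 0 ∧ B m m = -2 * k ^ 2 ∧ k ≠ 0 ∧
      IsCoprime (B e l1) (2 * disc B b) ∧ J(d | (B e l1).natAbs) = -1

/-- Let `N` be a nondegenerate even lattice of rank at least `4` containing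
`A_2 = ⟨l1, l2⟩`. The criterion of Galkin and Shinder holds if and only if the criterion of Hassett
and Kuznetsov holds and there is no obstruction. -/
theorem result {N : Type*} [AddCommGroup N] [Module.Free ℤ N] [Module.Finite ℤ N]
    (hr : 4 ≤ Module.finrank ℤ N)
    (B : N →ₗ[ℤ] N →ₗ[ℤ] ℤ) (hsymm : ∀ x y, B x y = B y x) (heven : ∀ x, Even (B x x))
    (hnd : ∀ x, (∀ y, B x y = 0) → x = 0)
    (l1 l2 : N) (h11 : B l1 l1 = 2) (h22 : B l2 l2 = 2) (h12 : B l1 l2 = -1) :
    GalkinShinder B l1 ↔ HassettKuznetsov B ∧ ¬ Obstruction B l1 := by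
  have hq : ∀ x, B x x = 2 * (B x x / 2) := by
    intro x
    obtain ⟨r, hr⟩ := heven x
    omega
  let L : EvenForm N := ⟨B, fun x => B x x / 2, hsymm, hq⟩
  have hBq : ∀ x, B x x = 2 * L.q x := hq
  have hq0 : ∀ x, B x x = 0 → L.q x = 0 := fun x hx => by
    have := hBq x
    omega
  have hl : L.q l1 = 1 := by
    have := hBq l1
    omega
  have hl2 : L.q l2 = 1 := by
    have := hBq l2
    omega
  have hndL : ∀ x, (∀ y, L.B x y = 0) → x = 0 := hnd
  have hposL : ∃ u, L.B u l1 = 0 ∧ 0 < L.q u := by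
    refine ⟨l1 + (2 : ℤ) • l2, ?_, ?_⟩
    · change B (l1 + (2 : ℤ) • l2) l1 = 0
      rw [map_add, map_smul, LinearMap.add_apply, LinearMap.smul_apply, smul_eq_mul, h11,
        hsymm l2 l1, h12]
      norm_num
    · rw [L.q_add, L.q_smul, hl, hl2, map_smul, smul_eq_mul]
      change 0 < 1 + 2 ^ 2 * 1 + 2 * B l1 l2
      rw [h12]
      norm_num
  have hpair : ∀ w : N, B w w = 0 → B w l1 = 1 →
      B (l1 - w) (l1 - w) = 0 ∧ B w (l1 - w) = 1 := by
    intro w hw hw1
    refine ⟨?_, ?_⟩
    · have h1 := hsymm l1 w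
      simp only [map_sub, LinearMap.sub_apply, h11, hw, hw1] at h1 ⊢
      rw [h1]
      norm_num
    · rw [map_sub, hw1, hw, sub_zero]
  have hGH : GalkinShinder B l1 → HassettKuznetsov B := by
    rintro ⟨w, hw, hw1⟩
    exact ⟨w, l1 - w, hw, (hpair w hw hw1).1, (hpair w hw hw1).2⟩
  have hfin : ∀ w : N, L.q w = 0 ∧ L.B w l1 = 1 → GalkinShinder B l1 := by
    rintro w ⟨h1, h2⟩
    exact ⟨w, by rw [hBq, h1, mul_zero], h2⟩
  have hdisc : ∀ b : Basis (Fin 4) ℤ N, disc B b = AllRank.gdet L b := fun _ => rfl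
  refine ⟨fun hGS => ⟨hGH hGS, ?_⟩, ?_⟩
  · -- the obstruction excludes `w`
    rintro ⟨b, d, t, hd1, hdo, hds, hD, h4, hfr, e, f, m, k, he, hf, hef, hme, hmf, hmm, hk, hco,
      hJ⟩
    rw [hdisc] at hD hco
    have ht : t ≠ 0 := by
      rintro rfl
      rw [hD, zero_pow two_ne_zero, mul_zero, mul_zero, isCoprime_zero_right,
        Int.isUnit_iff] at hco
      have h1 : (B e l1).natAbs = 1 := by omega
      rw [h1, jacobiSym.one_right] at hJ
      norm_num at hJ
    obtain ⟨w, hw, hw1⟩ := hGS
    refine AllRank.no_gs hdo hds hd1 hD ht h4 (hq0 e he) (hq0 f hf) hef hl hl2 h12 ?_ hco hJ hk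
      hme hmf ?_ ⟨w, hq0 w hw, hw1⟩
    · intro p hp hpd x hxe hxf
      have hp2 : p ≠ 2 := by
        rintro rfl
        rw [Nat.odd_iff] at hdo
        omega
      obtain ⟨-, u, v, hu, hv, huv⟩ := hfr p hp hpd
      exact AllRank.radical_dvd (L := L) b (hq0 e he) (hq0 f hf) hef hp hp2 hu hv huv hxe hxf
    · have := hBq m
      rw [hmm] at this
      omega
  · rintro ⟨hHK, hob⟩
    obtain ⟨e0, f0, he0, hf0, hef0⟩ := hHK
    rcases Nat.lt_or_ge 4 (Module.finrank ℤ N) with hr5 | hr4
    · obtain ⟨W, hW0, hW⟩ := AllRank.exists_disc (L := L) hndL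
      obtain ⟨e', f', he', hf', hef', hco⟩ := AllRank.exists_good_pair (L := L) (hq0 e0 he0)
        (hq0 f0 hf0) hef0 hl h12 (W := 2 * W) (mul_ne_zero two_ne_zero hW0)
      obtain ⟨m, hme, hmf, hm, hc, hJ⟩ := AllRank.exists_m5 hr5 hW he' hf' hef' hl hco hposL
      obtain ⟨w, hw⟩ := AllRank.gs_of_m hndL he' hf' hef' hl h12 hme hmf hm hc hJ
      exact hfin w hw
    · have h4 : Module.finrank ℤ N = 4 := le_antisymm hr4 hr
      let b : Basis (Fin 4) ℤ N := Module.finBasisOfFinrankEq ℤ N h4
      by_contra hno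
      -- the discriminant is not zero
      have hD0 : AllRank.gdet L b ≠ 0 := by
        intro h0
        obtain ⟨v, hv0, hv⟩ := Matrix.exists_mulVec_eq_zero_iff.mpr h0
        apply hv0
        have h1 : ∑ j, v j • b j = 0 := by
          refine hnd _ fun y => ?_
          rw [hsymm]
          have h2 : B.flip (∑ j, v j • b j) = 0 := by
            refine b.ext fun i => ?_
            rw [LinearMap.flip_apply, LinearMap.zero_apply, map_sum]
            have h3 := congrFun hv i
            rw [Matrix.mulVec, dotProduct, Pi.zero_apply] at h3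
            rw [← h3]
            refine Finset.sum_congr rfl fun j _ => ?_
            rw [map_smul, smul_eq_mul, Matrix.of_apply, mul_comm]
          exact LinearMap.congr_fun h2 y
        funext j
        exact (Fintype.linearIndependent_iff.mp b.linearIndependent v h1) j
      have hn0 : ∀ e f : N, L.q e = 0 → L.q f = 0 → L.B e f = 1 →
          IsCoprime (L.B e l1) (2 * AllRank.gdet L b) →
          J(AllRank.gdet L b | (L.B e l1).natAbs) = 1 → False := by
        intro e f he hf hef hco hJ
        obtain ⟨m, hme, hmf, hm, hc, hJ⟩ := AllRank.exists_m4 (L := L) (b := b) he hf hef hl hco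
          hJ hposL
        obtain ⟨w, hw⟩ := AllRank.gs_of_m hndL he hf hef hl h12 hme hmf hm hc hJ
        exact hno (hfin w hw)
      obtain ⟨e, f, he, hf, hef, hco⟩ := AllRank.exists_good_pair (L := L) (hq0 e0 he0)
        (hq0 f0 hf0) hef0 hl h12 (W := 2 * AllRank.gdet L b) (mul_ne_zero two_ne_zero hD0)
      have hc : (AllRank.gdet L b).gcd ((L.B e l1).natAbs : ℤ) = 1 := by
        have h1 : IsCoprime (L.B e l1) (AllRank.gdet L b) :=
          hco.of_isCoprime_of_dvd_right ⟨2, by ring⟩
        rw [Int.isCoprime_iff_gcd_eq_one, Int.gcd_comm] at h1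
        rw [Int.gcd_eq_natAbs, Int.natAbs_natCast, ← Int.gcd_eq_natAbs, h1]
      have hJ : J(AllRank.gdet L b | (L.B e l1).natAbs) = -1 := by
        rcases jacobiSym.eq_one_or_neg_one hc with h1 | h1
        · exact (hn0 e f he hf hef hco h1).elim
        · exact h1
      have hβ0 : L.B e l1 ≠ 0 := by
        intro h0
        rw [h0, isCoprime_zero_left, Int.isUnit_iff] at hco
        omega
      obtain ⟨mp, hmpe, hmpf, hmp⟩ := AllRank.exists_m_pos (L := L) he hef hl hβ0 hposL
      -- positive discriminant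
      have hD : 0 < AllRank.gdet L b := by
        rcases lt_or_gt_of_ne hD0 with h | h
        · obtain ⟨e2, f2, h2, h3, h4, h5, h6⟩ := AllRank.exists_flip_neg (L := L) (b := b) h
            he hf hef hl hco hJ hmpe hmpf hmp
          exact (hn0 e2 f2 h2 h3 h4 h5 h6).elim
        · exact h
      obtain ⟨mn, hmne, hmnf, hmn⟩ := AllRank.exists_m_neg (L := L) (b := b) hD he hf hef
        hmpe hmpf hmp
      have hall : ∀ p : ℕ, p.Prime → Odd (padicValInt p (AllRank.gdet L b)) → p ≠ 2 ∧
          ∀ m, L.B m e = 0 → L.B m f = 0 → (p : ℤ) ∣ L.q m := by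
        intro p hp hv
        have hp2 : p ≠ 2 := by
          rintro rfl
          obtain ⟨e2, f2, h2, h3, h4, h5, h6⟩ := AllRank.exists_flip_two (L := L) (b := b) hD
            he hf hef hl hl2 h12 hco hJ hv hmne hmnf hmn
          exact hn0 e2 f2 h2 h3 h4 h5 h6
        refine ⟨hp2, fun m hme hmf => ?_⟩
        by_contra hm
        obtain ⟨e2, f2, h2, h3, h4, h5, h6⟩ := AllRank.exists_flip (L := L) (b := b) hD he hf
          hef hl hco hJ hp hp2 hv hme hmf hm hmne hmnf hmn
        exact hn0 e2 f2 h2 h3 h4 h5 h6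
      obtain ⟨D, hDD⟩ : ∃ D : ℕ, AllRank.gdet L b = D :=
        ⟨(AllRank.gdet L b).toNat, by omega⟩
      have hDpos : 0 < D := by
        have : (0 : ℤ) < D := by rw [← hDD]; exact hD
        exact_mod_cast this
      obtain ⟨d, t, hd1, hdsq, hDdt, hdv⟩ := AllRank.exists_decomp hDpos (by
        rintro ⟨r, hr⟩
        have hc' := hc
        have hJ' := hJ
        rw [hDD, hr] at hJ' hc'
        rw [Nat.cast_mul] at hJ' hc'
        have h1 : J((r : ℤ) * r | (L.B e l1).natAbs) = 1 := by
          rw [← sq]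
          rw [sq, jacobiSym.mul_left, ← sq]
          refine jacobiSym.sq_one ?_
          have h2 : IsCoprime ((r : ℤ) * r) ((L.B e l1).natAbs : ℤ) :=
            Int.isCoprime_iff_gcd_eq_one.mpr hc'
          exact Int.isCoprime_iff_gcd_eq_one.mp h2.of_mul_left_left
        rw [h1] at hJ'
        norm_num at hJ') (by
        intro p hp hv
        have h1 := AllRank.sq_dvd_gdet (L := L) b he hf hef (p := (p : ℤ))
          (hall p hp (by rw [hDD, padicValInt.of_nat]; exact hv)).2
        rw [hDD] at h1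
        exact_mod_cast h1)
      have hdo : Odd d := by
        rw [← Nat.not_even_iff_odd]
        intro h2
        refine (hall 2 Nat.prime_two ?_).1 rfl
        rw [hDD, padicValInt.of_nat]
        exact hdv 2 Nat.prime_two h2.two_dvd
      have hD3 : AllRank.gdet L b = (d : ℤ) ^ 3 * (t : ℤ) ^ 2 := by
        rw [hDD, hDdt]
        push_cast
        ring
      have ht0 : (t : ℤ) ≠ 0 := by
        intro h0
        rw [h0] at hD3
        exact hD0 (by rw [hD3]; ring)
      -- the Jacobi symbols of `d` and of the discriminant agree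
      have hJd : ∀ β : ℤ, IsCoprime β (2 * AllRank.gdet L b) →
          J(AllRank.gdet L b | β.natAbs) = J(d | β.natAbs) := by
        intro β hβ
        have hcop : ∀ x : ℤ, x ∣ AllRank.gdet L b → x.gcd (β.natAbs : ℤ) = 1 := by
          intro x hx
          have h1 : IsCoprime β x :=
            hβ.of_isCoprime_of_dvd_right (hx.trans (dvd_mul_left _ _))
          rw [Int.isCoprime_iff_gcd_eq_one, Int.gcd_comm] at h1
          rw [Int.gcd_eq_natAbs, Int.natAbs_natCast, ← Int.gcd_eq_natAbs, h1]
        have h1 : J((d : ℤ) | β.natAbs) ^ 2 = 1 :=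
          jacobiSym.sq_one (hcop _ ⟨(d : ℤ) ^ 2 * (t : ℤ) ^ 2, by rw [hD3]; ring⟩)
        have h2 : J((t : ℤ) | β.natAbs) ^ 2 = 1 :=
          jacobiSym.sq_one (hcop _ ⟨(d : ℤ) ^ 3 * t, by rw [hD3]; ring⟩)
        rw [hD3, jacobiSym.mul_left, jacobiSym.pow_left, jacobiSym.pow_left, h2, mul_one, pow_succ,
          h1, one_mul]
      have hrad : ∀ p : ℕ, p.Prime → p ∣ d → ∀ m, L.B m e = 0 → L.B m f = 0 →
          (p : ℤ) ∣ L.q m := by
        intro p hp hpd
        exact (hall p hp (by rw [hDD, padicValInt.of_nat]; exact hdv p hp hpd)).2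
      -- the vector of norm `-2 k²`
      obtain ⟨X, Y, Z, hZ, hXY⟩ := AllRank.exists_norm hdo hdsq hd1 (n := -L.q mn) (by omega) (by
        intro p hp hp2
        by_cases hpD : (p : ℤ) ∣ AllRank.gdet L b
        · rcases AllRank.hs_eq (d := d) hp hdo hdsq (n := -L.q mn) (by omega) with h | h
          · exact h
          · obtain ⟨e2, f2, h2, h3, h4, h5, h6⟩ := AllRank.exists_flip_swap hdo hdsq hD3 ht0 he hf
              hef hl hco (by rw [← hJd _ hco]; exact hJ) hp hp2 hpD hmne hmnf hmn.ne h
            exact (hn0 e2 f2 h2 h3 h4 h5 (by rw [hJd _ h5]; exact h6)).elim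
        · have hpd : ¬ p ∣ d := by
            intro h
            apply hpD
            rw [hD3]
            exact Dvd.dvd.mul_right (dvd_pow (by exact_mod_cast h) three_ne_zero) _
          obtain ⟨v, n', hv, hn'⟩ := AllRank.exists_pow_mul hp (n := -L.q mn) (by omega)
          rw [hv, AllRank.hs_unr hp hp2 hpd v hn']
          have hpc : (d : ℤ).gcd p = 1 := by
            rw [Int.gcd_comm]
            exact Int.isCoprime_iff_gcd_eq_one.mp
              ((Nat.isCoprime_iff_coprime).mpr ((Nat.Prime.coprime_iff_not_dvd hp).mpr hpd))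
          rcases jacobiSym.eq_one_or_neg_one hpc with h | h
          · rw [h, one_pow]
          · have hptc : (t : ℤ).gcd p = 1 := by
              rw [Int.gcd_comm]
              refine Int.isCoprime_iff_gcd_eq_one.mp
                (((Nat.prime_iff_prime_int.mp hp).coprime_iff_not_dvd).mpr fun h2 => hpD ?_)
              rw [hD3]
              exact Dvd.dvd.mul_left (dvd_pow h2 two_ne_zero) _
            have hJp : J(AllRank.gdet L b | p) = -1 := by
              rw [hD3, jacobiSym.mul_left, jacobiSym.pow_left, jacobiSym.pow_left, h,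
                jacobiSym.sq_one hptc]
              norm_num
            have hev := AllRank.inert_even b he hf hef hp hp2 hJp hmne hmnf hmn.ne
            have hvv : padicValInt p (L.q mn) = v := by
              have h1 : L.q mn = (p : ℤ) ^ v * (-n') := by linarith
              rw [h1]
              exact AllRank.padic_pow_mul hp (by rwa [dvd_neg])
            rw [hvv] at hev
            rw [h, hev.neg_one_pow])
      obtain ⟨m', hme', hmf', hmm', hqm'⟩ := AllRank.exists_perp b he hf hef hmne hmnf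
      refine hob ⟨b, d, t, hd1, hdo, hdsq, by rw [hdisc]; exact hD3, ?_, ?_, e, f,
        (X * t * d) • mn + Y • m', L.q mn * Z * t * d, ?_, ?_, hef, ?_, ?_, ?_, ?_, ?_, ?_⟩
      · -- the condition at `2`
        intro hd3
        obtain ⟨c, h0, h1, h2e, h2f, h3e, h3f⟩ := AllRank.exists_adapted b he hf hef
        have hDB := AllRank.gdet_adapted b c (by rw [h0, he]) (by rw [h1, hf])
          (by rw [h0, h1, hef]) (by rw [h0, h2e]) (by rw [h1, h2f]) (by rw [h0, h3e])
          (by rw [h1, h3f])
        rw [hD3] at hDB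
        obtain ⟨x, hx⟩ : ∃ x : ℤ, (d : ℤ) ^ 3 = 4 * x + 3 := by
          obtain ⟨y, hy⟩ : ∃ y : ℤ, (d : ℤ) = 4 * y + 3 := ⟨(d : ℤ) / 4, by omega⟩
          exact ⟨16 * y ^ 3 + 36 * y ^ 2 + 27 * y + 6, by rw [hy]; ring⟩
        rw [hx] at hDB
        obtain ⟨t1, ht1 | ht1⟩ := Nat.even_or_odd' t
        · obtain ⟨t2, ht2 | ht2⟩ := Nat.even_or_odd' t1
          · exact ⟨t2, by rw [ht1, ht2]; push_cast; ring⟩
          · exfalso
            have hD4 : AllRank.gdet L b = 4 * ((d : ℤ) ^ 3 * (t1 : ℤ) ^ 2) := by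
              rw [hD3, ht1]
              push_cast
              ring
            have hmod : ((d : ℤ) ^ 3 * (t1 : ℤ) ^ 2) % 4 = 3 := by
              have h5 : (d : ℤ) ^ 3 * (t1 : ℤ) ^ 2 =
                  4 * (x * (2 * t2 + 1) ^ 2 + 3 * (t2 ^ 2 + t2)) + 3 := by
                rw [hx, ht2]
                push_cast
                ring
              omega
            have hpos1 : 0 < (d : ℤ) ^ 3 * (t1 : ℤ) ^ 2 := by
              rw [hD4] at hD
              omega
            obtain ⟨e2, f2, h2, h3, h4, h5, h6⟩ := AllRank.exists_flip_four hpos1 hD4 hmod he hf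
              hef hl hco hJ hmne hmnf hmn
            exact hn0 e2 f2 h2 h3 h4 h5 h6
        · exfalso
          obtain ⟨y, hy | hy⟩ := Int.even_or_odd' (L.B (c 2) (c 3))
          · rw [hy, ht1] at hDB
            push_cast at hDB
            have h5 : 4 * (x * (2 * t1 + 1) ^ 2 + 3 * (t1 ^ 2 + t1) - y ^ 2
                + L.q (c 2) * L.q (c 3)) + 3 = 0 := by
              linear_combination hDB
            omega
          · rw [hy, ht1] at hDB
            push_cast at hDB
            have h5 : 4 * (x * (2 * t1 + 1) ^ 2 + 3 * (t1 ^ 2 + t1) - y ^ 2 - y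
                + L.q (c 2) * L.q (c 3)) + 2 = 0 := by
              linear_combination hDB
            omega
      · intro p hp hpd
        have hp2 : p ≠ 2 := by
          rintro rfl
          rw [Nat.odd_iff] at hdo
          omega
        have hM := hrad p hp hpd
        obtain ⟨r, hr⟩ := AllRank.neg_three_square (L := L) he hf hef hl hl2 h12 hM
        refine ⟨AllRank.mod_three hp hp2 hr, ?_⟩
        rcases AllRank.exists_unit_or_radical (L := L) b he hf hef hp with ⟨m1, h1e, h1f, h1⟩ | h1
        · exact (h1 (hM m1 h1e h1f)).elim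
        · exact h1
      · rw [hBq, he, mul_zero]
      · rw [hBq, hf, mul_zero]
      · change L.B ((X * t * d) • mn + Y • m') e = 0
        rw [map_add, map_smul, map_smul, LinearMap.add_apply, LinearMap.smul_apply,
          LinearMap.smul_apply, hmne, hme', smul_zero, smul_zero, add_zero]
      · change L.B ((X * t * d) • mn + Y • m') f = 0
        rw [map_add, map_smul, map_smul, LinearMap.add_apply, LinearMap.smul_apply,
          LinearMap.smul_apply, hmnf, hmf', smul_zero, smul_zero, add_zero]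
      · rw [hBq, L.q_add, L.q_smul, L.q_smul, map_smul, map_smul, LinearMap.smul_apply, hmm',
          smul_zero, smul_zero, hqm', hD3]
        linear_combination (2 * L.q mn * (t : ℤ) ^ 2 * (d : ℤ) ^ 2) * hXY
      · refine mul_ne_zero (mul_ne_zero (mul_ne_zero hmn.ne hZ) ht0) ?_
        have : 0 < d := by omega
        exact_mod_cast this.ne'
      · rw [hdisc]
        exact hco
      · change J((d : ℤ) | (L.B e l1).natAbs) = -1
        rw [← hJd _ hco]
        exact hJ

end Pool.Agent.Results.MP_4d0966_ag.Comparison
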