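import Mathlib
import Pool.Agent.MP4d0966.FMData

/-!
# The criterion of Galkin-Shinder is not invariant under Fourier-Mukai partnership

For a smooth cubic fourfold `X` let `N` be the numerical K-group of its Kuznetsov component with
the `A_2` sublattice spanned by `l1, l2`; the rank of `N` is one more than the rank of the group of
integral `(2,2)`-classes. Two pairs `(l1, l2)` and `(m1, m2)` spanning `A_2` in the same lattice
`N` give two cubic fourfolds with the same Kuznetsov component, i.e. Fourier-Mukai partners. The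
file gives infinite families of lattices of rank four with two such pairs, such that the criterion
of Galkin-Shinder fails for the first pair, while it holds for the second one and the cubic
fourfold of the second pair lies in one of the divisors `C_14`, `C_26`, `C_38`, `C_42` which
consist of rational cubic fourfolds.
-/

set_option autoImplicit false

namespace Pool.Agent.Results.MP_4d0966_ag.FMPartners

open Pool.Agent.MP4d0966

/-- The lattice-theoretic form of the criterion of Hassett and Kuznetsov (Addington and Thomas):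
the lattice contains a hyperbolic plane `⟨e, f⟩`. -/
def HassettKuznetsov {N : Type*} [AddCommGroup N] (B : N →ₗ[ℤ] N →ₗ[ℤ] ℤ) : Prop :=
  ∃ e f : N, B e e = 0 ∧ B f f = 0 ∧ B e f = 1

/-- The lattice-theoretic form of the criterion of Galkin and Shinder (Addington): there is an
isotropic vector `w` with `(w, l1) = 1`. -/
def GalkinShinder {N : Type*} [AddCommGroup N] (B : N →ₗ[ℤ] N →ₗ[ℤ] ℤ) (l1 : N) : Prop :=
  ∃ w : N, B w w = 0 ∧ B w l1 = 1

/-- An even lattice with vectors `l1, l2` which span `A_2`, such that the orthogonal complement of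
`l1, l2` is negative definite without vectors of norm `-2`, `-4` or `-6`. -/
def CubicLattice {N : Type*} [AddCommGroup N] (B : N →ₗ[ℤ] N →ₗ[ℤ] ℤ) (l1 l2 : N) : Prop :=
  (∀ x y, B x y = B y x) ∧ (∀ x, Even (B x x)) ∧ B l1 l1 = 2 ∧ B l2 l2 = 2 ∧ B l1 l2 = -1 ∧
    ∀ x, B x l1 = 0 → B x l2 = 0 → x ≠ 0 → B x x < -6

/-- There is a vector `x` such that the Gram determinant of `l1, l2, x` is `-d`. If `d` is
squarefree, then the lattice spanned by `l1, l2, x` is saturated. -/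
def HasLabel {N : Type*} [AddCommGroup N] (B : N →ₗ[ℤ] N →ₗ[ℤ] ℤ) (l1 l2 : N) (d : ℤ) : Prop :=
  ∃ x : N, Matrix.det !![B l1 l1, B l1 l2, B l1 x; B l2 l1, B l2 l2, B l2 x;
    B x l1, B x l2, B x x] = -d

theorem prodU_add_left (d c : ℤ) (x y z : Fin 4 → ℤ) :
    FM.prod d c (x + y) z = FM.prod d c x z + FM.prod d c y z := by
  simp only [FM.prod, Pi.add_apply]; ring

theorem prodU_smul_left (d c : ℤ) (r : ℤ) (x y : Fin 4 → ℤ) :
    FM.prod d c (r • x) y = r • FM.prod d c x y := by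
  simp only [FM.prod, Pi.smul_apply, smul_eq_mul]; ring

theorem prodU_add_right (d c : ℤ) (x y z : Fin 4 → ℤ) :
    FM.prod d c x (y + z) = FM.prod d c x y + FM.prod d c x z := by
  simp only [FM.prod, Pi.add_apply]; ring

theorem prodU_smul_right (d c : ℤ) (r : ℤ) (x y : Fin 4 → ℤ) :
    FM.prod d c x (r • y) = r • FM.prod d c x y := by
  simp only [FM.prod, Pi.smul_apply, smul_eq_mul]; ring

/-- The bilinear form of the lattice `U + ⟨d⟩ + ⟨-c⟩`:
`(v, w) = v0 w1 + v1 w0 + d v2 w2 - c v3 w3`. -/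
def formU (d c : ℤ) : (Fin 4 → ℤ) →ₗ[ℤ] (Fin 4 → ℤ) →ₗ[ℤ] ℤ :=
  LinearMap.mk₂ ℤ (FM.prod d c) (prodU_add_left d c) (prodU_smul_left d c)
    (prodU_add_right d c) (prodU_smul_right d c)

theorem formU_apply (d c : ℤ) (v w : Fin 4 → ℤ) : formU d c v w =
    v 0 * w 1 + v 1 * w 0 + d * (v 2 * w 2) - c * (v 3 * w 3) := rfl

theorem formU_symm (d c : ℤ) (x y : Fin 4 → ℤ) : formU d c x y = formU d c y x := by
  simp only [formU_apply]
  ring

theorem formU_even (d c : ℤ) (hd : Even d) (hc : Even c) (x : Fin 4 → ℤ) :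
    Even (formU d c x x) := by
  obtain ⟨d', rfl⟩ := hd
  obtain ⟨c', rfl⟩ := hc
  simp only [formU_apply]
  exact ⟨x 0 * x 1 + d' * (x 2 * x 2) - c' * (x 3 * x 3), by ring⟩

theorem formU_hk (d c : ℤ) : HassettKuznetsov (formU d c) := by
  refine ⟨![1, 0, 0, 0], ![0, 1, 0, 0], ?_, ?_, ?_⟩ <;> simp [formU_apply]

/-- The lattice `U + ⟨d⟩ + ⟨-c⟩` contains a hyperbolic plane and two pairs `(l1, l2)`, `(m1, m2)`
spanning `A_2`, both of which come from smooth cubic fourfolds, such that the criterion of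
Galkin-Shinder fails for the first pair and holds for the second one, and the second pair has
label `d`. -/
def Partners (d c : ℤ) : Prop :=
  HassettKuznetsov (formU d c) ∧ ∃ l1 l2 m1 m2 : Fin 4 → ℤ,
    (CubicLattice (formU d c) l1 l2 ∧ ¬ GalkinShinder (formU d c) l1) ∧
    (CubicLattice (formU d c) m1 m2 ∧ GalkinShinder (formU d c) m1 ∧
      HasLabel (formU d c) m1 m2 d)

theorem exists_eight (k : ℤ) (hk : Odd k) : ∃ T, k ^ 2 = 8 * T + 1 := by
  obtain ⟨i, rfl⟩ := hk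
  obtain ⟨c, hc⟩ := Int.even_mul_succ_self i
  exact ⟨c, by linear_combination 4 * hc⟩

theorem exists_three (k : ℤ) (hk : ¬ 3 ∣ k) : ∃ T, k ^ 2 = 3 * T + 1 := by
  rcases (show k % 3 = 1 ∨ k % 3 = 2 by omega) with h | h
  · obtain ⟨i, hi⟩ : ∃ i, k = 3 * i + 1 := ⟨k / 3, by omega⟩
    exact ⟨3 * i ^ 2 + 2 * i, by rw [hi]; ring⟩
  · obtain ⟨i, hi⟩ : ∃ i, k = 3 * i + 2 := ⟨k / 3, by omega⟩
    exact ⟨3 * i ^ 2 + 4 * i + 1, by rw [hi]; ring⟩

theorem ne_zero_cases {x : Fin 4 → ℤ} (hx : x ≠ 0) {a b : ℤ} (i : ℤ) (h0 : x 0 = a * i)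
    (h1 : x 1 = -x 0) (h2 : x 2 = b * i) : i ≠ 0 ∨ x 3 ≠ 0 := by
  by_contra hcon
  push Not at hcon
  apply hx
  ext t
  fin_cases t
  · show x 0 = 0
    rw [h0, hcon.1, mul_zero]
  · show x 1 = 0
    rw [h1, h0, hcon.1, mul_zero, neg_zero]
  · show x 2 = 0
    rw [h2, hcon.1, mul_zero]
  · exact hcon.2

theorem lt_of_cases (r c i y : ℤ) (hr : 6 < r) (hc : 6 < c) (h : i ≠ 0 ∨ y ≠ 0) :
    -(r * i ^ 2) - c * y ^ 2 < -6 := by
  rcases h with h | h
  · have h9 : 1 ≤ i ^ 2 := by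
      have := sq_pos_of_ne_zero h
      omega
    nlinarith [sq_nonneg y]
  · have h9 : 1 ≤ y ^ 2 := by
      have := sq_pos_of_ne_zero h
      omega
    nlinarith [sq_nonneg i]

theorem one_le_sq {k r T : ℤ} (hr : 1 < r) (hT : k ^ 2 = r * T + 1) : 1 ≤ k ^ 2 := by
  by_contra hcon
  have h5 : k ^ 2 = 0 := le_antisymm (by omega) (sq_nonneg k)
  rw [h5] at hT
  have h6 : r * (-T) = 1 := by linarith
  have h7 := Int.eq_one_or_neg_one_of_mul_eq_one h6
  omega

theorem partners14 (k : ℤ) (hk : Odd k) : Partners 14 (392 * k ^ 2) := by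
  obtain ⟨T, hT⟩ := exists_eight k hk
  have hk1 : 1 ≤ k ^ 2 := one_le_sq (by norm_num) hT
  have hev : Even (392 * k ^ 2) := ⟨196 * k ^ 2, by ring⟩
  refine ⟨formU_hk _ _, FM.D14.l1 T, FM.D14.l2 T, ![1, 1, 0, 0],
    ![2, -3, 1, 0], ⟨⟨formU_symm _ _, formU_even _ _ (by decide) hev, FM.D14.prod_l1_l1 hT,
    FM.D14.prod_l2_l2 hT, FM.D14.prod_l1_l2 hT,
    fun x h1 h2 h3 => FM.D14.prod_lt hT x h1 h2 h3⟩, ?_⟩,
    ⟨formU_symm _ _, formU_even _ _ (by decide) hev, ?_, ?_, ?_, ?_⟩,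
    ⟨![1, 0, 0, 0], ?_, ?_⟩, ⟨![1, 0, 0, 0], ?_⟩⟩
  · rintro ⟨w, hw, hw1⟩
    exact FM.D14.no_gs hT w hw hw1
  · simp [formU_apply]
  · simp [formU_apply]
  · simp [formU_apply]
  · intro x h1 h2 h3
    simp only [formU_apply] at h1 h2 ⊢
    simp at h1 h2
    have h4 : x 1 = -x 0 := by linarith
    obtain ⟨i, hi⟩ : ∃ i, x 0 = 14 * i := ⟨x 0 / 14, by omega⟩
    have h6 : x 2 = 5 * i := by omega
    have h7 := lt_of_cases 42 (392 * k ^ 2) i (x 3) (by norm_num) (by linarith)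
      (ne_zero_cases h3 i hi h4 h6)
    rw [h4, h6, hi]
    linarith
  · simp [formU_apply]
  · simp [formU_apply]
  · rw [Matrix.det_fin_three]
    simp [formU_apply]

theorem partners38 (k : ℤ) (hk : Odd k) : Partners 38 (2888 * k ^ 2) := by
  obtain ⟨T, hT⟩ := exists_eight k hk
  have hk1 : 1 ≤ k ^ 2 := one_le_sq (by norm_num) hT
  have hev : Even (2888 * k ^ 2) := ⟨1444 * k ^ 2, by ring⟩
  refine ⟨formU_hk _ _, FM.D38.l1 T, FM.D38.l2 T, ![1, 1, 0, 0],
    ![30, -31, 7, 0], ⟨⟨formU_symm _ _, formU_even _ _ (by decide) hev, FM.D38.prod_l1_l1 hT,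
    FM.D38.prod_l2_l2 hT, FM.D38.prod_l1_l2 hT,
    fun x h1 h2 h3 => FM.D38.prod_lt hT x h1 h2 h3⟩, ?_⟩,
    ⟨formU_symm _ _, formU_even _ _ (by decide) hev, ?_, ?_, ?_, ?_⟩,
    ⟨![1, 0, 0, 0], ?_, ?_⟩, ⟨![-26, 0, -3, 0], ?_⟩⟩
  · rintro ⟨w, hw, hw1⟩
    exact FM.D38.no_gs hT w hw hw1
  · simp [formU_apply]
  · simp [formU_apply]
  · simp [formU_apply]
  · intro x h1 h2 h3
    simp only [formU_apply] at h1 h2 ⊢
    simp at h1 h2
    have h4 : x 1 = -x 0 := by linarith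
    obtain ⟨i, hi⟩ : ∃ i, x 0 = 266 * i := ⟨x 0 / 266, by omega⟩
    have h6 : x 2 = 61 * i := by omega
    have h7 := lt_of_cases 114 (2888 * k ^ 2) i (x 3) (by norm_num) (by linarith)
      (ne_zero_cases h3 i hi h4 h6)
    rw [h4, h6, hi]
    linarith
  · simp [formU_apply]
  · simp [formU_apply]
  · rw [Matrix.det_fin_three]
    simp [formU_apply]

theorem partners42 (k : ℤ) (hk : ¬ 3 ∣ k) : Partners 42 (882 * k ^ 2) := by
  obtain ⟨T, hT⟩ := exists_three k hk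
  have hk1 : 1 ≤ k ^ 2 := one_le_sq (by norm_num) hT
  have hev : Even (882 * k ^ 2) := ⟨441 * k ^ 2, by ring⟩
  refine ⟨formU_hk _ _, FM.D42.l1 T, FM.D42.l2 T, ![1, 1, 0, 0],
    ![4, -5, 1, 0], ⟨⟨formU_symm _ _, formU_even _ _ (by decide) hev, FM.D42.prod_l1_l1 hT,
    FM.D42.prod_l2_l2 hT, FM.D42.prod_l1_l2 hT,
    fun x h1 h2 h3 => FM.D42.prod_lt hT x h1 h2 h3⟩, ?_⟩,
    ⟨formU_symm _ _, formU_even _ _ (by decide) hev, ?_, ?_, ?_, ?_⟩,
    ⟨![1, 0, 0, 0], ?_, ?_⟩, ⟨![1, 0, 0, 0], ?_⟩⟩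
  · rintro ⟨w, hw, hw1⟩
    exact FM.D42.no_gs hT w hw hw1
  · simp [formU_apply]
  · simp [formU_apply]
  · simp [formU_apply]
  · intro x h1 h2 h3
    simp only [formU_apply] at h1 h2 ⊢
    simp at h1 h2
    have h4 : x 1 = -x 0 := by linarith
    obtain ⟨i, hi⟩ : ∃ i, x 0 = 14 * i := ⟨x 0 / 14, by omega⟩
    have h6 : x 2 = 3 * i := by omega
    have h7 := lt_of_cases 14 (882 * k ^ 2) i (x 3) (by norm_num) (by linarith)
      (ne_zero_cases h3 i hi h4 h6)
    rw [h4, h6, hi]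
    linarith
  · simp [formU_apply]
  · simp [formU_apply]
  · rw [Matrix.det_fin_three]
    simp [formU_apply]


theorem partners26 (a b k : ℤ) (hab : a ^ 2 - 13 * b ^ 2 = -1) (hka : k ∣ a) (hk : k ≠ 0) :
    Partners 26 (338 * k ^ 2) := by
  obtain ⟨a', rfl⟩ := hka
  have h : k ^ 2 * a' ^ 2 - 13 * b ^ 2 = -1 := by linear_combination hab
  have hk1 : 1 ≤ k ^ 2 := by
    have := sq_pos_of_ne_zero hk
    omega
  have hev : Even (338 * k ^ 2) := ⟨169 * k ^ 2, by ring⟩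
  refine ⟨formU_hk _ _, FM.D26.l1 a' b, FM.D26.l2 a' b, ![1, 1, 0, 0],
    ![3, -4, 1, 0], ⟨⟨formU_symm _ _, formU_even _ _ (by decide) hev, FM.D26.prod_l1_l1 h,
    FM.D26.prod_l2_l2 h, FM.D26.prod_l1_l2 h,
    fun x h1 h2 h3 => FM.D26.prod_lt h hk x h1 h2 h3⟩, ?_⟩,
    ⟨formU_symm _ _, formU_even _ _ (by decide) hev, ?_, ?_, ?_, ?_⟩,
    ⟨![1, 0, 0, 0], ?_, ?_⟩, ⟨![1, 0, 0, 0], ?_⟩⟩
  · rintro ⟨w, hw, hw1⟩
    exact FM.D26.no_gs h w hw hw1
  · simp [formU_apply]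
  · simp [formU_apply]
  · simp [formU_apply]
  · intro x h1 h2 h3
    simp only [formU_apply] at h1 h2 ⊢
    simp at h1 h2
    have h4 : x 1 = -x 0 := by linarith
    obtain ⟨i, hi⟩ : ∃ i, x 0 = 26 * i := ⟨x 0 / 26, by omega⟩
    have h6 : x 2 = 7 * i := by omega
    have h7 := lt_of_cases 78 (338 * k ^ 2) i (x 3) (by norm_num) (by linarith)
      (ne_zero_cases h3 i hi h4 h6)
    rw [h4, h6, hi]
    linarith
  · simp [formU_apply]
  · simp [formU_apply]
  · rw [Matrix.det_fin_three]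
    simp [formU_apply]

/-- For `(d, c) = (14, 392 k ^ 2)` and `(38, 2888 k ^ 2)` with `k` odd, `(42, 882 k ^ 2)` with `k`
prime to `3`, and `(26, 338 k ^ 2)` with `k` a divisor of some `a` with `a ^ 2 - 13 b ^ 2 = -1`
(for example `k = 1, 2, 3, 6, 9, 18`), the lattice `U + ⟨d⟩ + ⟨-c⟩` contains two pairs `(l1, l2)`
and `(m1, m2)` spanning `A_2`, both of which come from smooth cubic fourfolds, such that the
criterion of Galkin-Shinder fails for the first pair and holds for the second one, and the second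
pair has label `d`. -/
theorem result :
    (∀ k : ℤ, Odd k → Partners 14 (392 * k ^ 2)) ∧
    (∀ a b k : ℤ, a ^ 2 - 13 * b ^ 2 = -1 → k ∣ a → k ≠ 0 → Partners 26 (338 * k ^ 2)) ∧
    (∀ k : ℤ, Odd k → Partners 38 (2888 * k ^ 2)) ∧
    (∀ k : ℤ, ¬ 3 ∣ k → Partners 42 (882 * k ^ 2)) :=
  ⟨partners14, partners26, partners38, partners42⟩

end Pool.Agent.Results.MP_4d0966_ag.FMPartners
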