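import Pool.Agent.P28.FinalT
import Pool.Agent.P28.FSharp

set_option autoImplicit false

/-!
# MP_4d0966_ag: smooth cubic fourfolds with at least 28 planes

`F` is a cubic form in six variables, `X` the hypersurface `F = 0` in the projective space of
dimension five, smooth (`PSmooth`). Planes and lines of `X` are subspaces of `ℂ^6` of dimension 3
and 2 on which `F` vanishes (`PPlane`, `PLine`).

1. Any finite set of planes of `X` which meet pairwise has at most 27 members; 27 occurs.
2. If `X` contains at least 28 planes, then it contains two disjoint planes, `X` is rational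
   (`Rational`), and the variety of lines of `X` is birational to the symmetric square of a smooth
   complete intersection of bidegrees `(2, 1)`, `(1, 2)` in `P^2 x P^2` (`SmoothCI`, `BirSym`),
   a K3 surface.
-/

namespace Pool.Agent.Results.MP_4d0966_ag.ManyPlanes

open Pool.Agent.P28 Module MvPolynomial

theorem result :
    (∀ F : MvPolynomial (Fin 6) ℂ, F.IsHomogeneous 3 → PSmooth F →
      ∀ S : Finset (Submodule ℂ (Fin 6 → ℂ)), (∀ P ∈ S, PPlane F P) →
        ((∀ P ∈ S, ∀ P' ∈ S, P ⊓ P' ≠ ⊥) → S.card ≤ 27) ∧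
        (28 ≤ S.card → (∃ P ∈ S, ∃ P' ∈ S, P ⊓ P' = ⊥) ∧ Rational F ∧
          ∃ f g : MvPolynomial V2 ℂ, SmoothCI f g ∧ BirSym F f g)) ∧
    (∃ F : MvPolynomial (Fin 6) ℂ, F.IsHomogeneous 3 ∧ PSmooth F ∧
      ∃ S : Finset (Submodule ℂ (Fin 6 → ℂ)), S.card = 27 ∧ (∀ P ∈ S, PPlane F P) ∧
        ∀ P ∈ S, ∀ P' ∈ S, P ⊓ P' ≠ ⊥) := by
  refine ⟨?_, sharp⟩
  intro F hF hs S hS
  refine ⟨fun hm => ?_, fun hc => many_planes F hF hs S hS hc⟩
  obtain ⟨C, h1, h2⟩ := of_poly F hF
  exact planes_le C (smooth_of h1 h2 hs) (by simp) S (fun P hP => plane_of h1 (hS P hP)) hm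

end Pool.Agent.Results.MP_4d0966_ag.ManyPlanes
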