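import Pool.Agent.PLN.VerraMain

set_option autoImplicit false

/-!
# MP_4d0966_ag: cubic fourfolds containing a plane: a criterion of rationality

Every cubic form in `x0, x1, x2, y0, y1, y2` which vanishes on the plane `x = 0` is
`cubic M = ∑ a_ij(x) y_i y_j + 2 ∑ b_i(x) y_i + c(x)` for a symmetric matrix `M` (`IsCub M`), and
`det M = 0` is the discriminant sextic `D` of the quadric surface fibration defined by the plane.
The curve `γ = 0` is the image of a curve on the double covering `S` of the plane branched along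
`D`; it splits the quadrics.  The partner is a net of quadrics of `ℙ⁵`, or a double covering of
`ℙ² × ℙ²`, with the same discriminant curve and, after a twist by `γ`, the same generic quadric.

Example (computer algebra): `γ = x0 x2 - x1²`,
`M = [[-x2, 0, 0, -x1²], [0, x0, x2, 0], [0, x2, -2 x1, x0²], [-x1², 0, x0², x2 γ]]`, and the net
`N`, symmetric 6x6 (indices 0 to 5), with the nonzero entries `00: -x0`, `01: -x0`, `02: -x2`,
`03: -x0`, `11: x2`, `14: -x1`, `22: 2 x1`, `24: -x0`, `33: -x0`, `34: -x1`, `44: -x2`, `25: x0`,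
`35: x1`, `45: x2`.  `det N = - det M`,
`det M = x1² (x0² + x1 x2)² + γ (x0⁴ + x2⁴ + 2 x0 x1 (x2² - x1²))` is smooth, and
`- γ adj(M)_jj adj(N)_ii` is a square modulo `det M`: `γ M = Aᵀ N A` with `A` of size 6x4.
This is a member of a family of codimension one among the cubic fourfolds containing a plane: `D` is
tangent to a conic at six points.
-/

namespace Pool.Agent.Results.MP_4d0966_ag.PlaneK3

open Pool.Agent.PLN MvPolynomial Matrix

theorem result (M : Matrix (Fin 4) (Fin 4) S3) (hM : IsCub M) (hS : SmoothCurve M.det)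
    (γ : S3) (m : ℕ) (hγ : γ.IsHomogeneous m) (hi : Irreducible γ) (hsplit : SqMod γ M.det)
    (hpartner :
      (∃ (N : Fin 3 → Matrix (Fin 6) (Fin 6) ℂ) (c : ℂ) (i : Fin 6) (j : Fin 4),
        (∀ k, (N k).IsSymm) ∧ c ≠ 0 ∧ (net N).det = C c * M.det ∧
          SqMod M.det (γ * M.adjugate j j * (net N).adjugate i i)) ∨
      ∃ (t : Fin 3 → Fin 3 → Fin 3 → Fin 3 → ℂ) (c : ℂ) (sg : Fin 3 → S3) (w : S3) (i : Fin 3)
        (j : Fin 4), VerraData M t c sg w ∧
          SqMod M.det (γ * M.adjugate j j * (vA t).adjugate i i)) :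
    Pool.Agent.P28.Rational (cubic M) := by
  rcases hpartner with ⟨N, c, i, j, hN, hc, hd, h⟩ | ⟨t, c, sg, w, i, j, hV, h⟩
  · exact net_rational hM hS hN hc hd hγ hi hsplit i j h
  · exact verra_rational hM hS hV hγ hi hsplit i j h

end Pool.Agent.Results.MP_4d0966_ag.PlaneK3
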