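import Mathlib

set_option autoImplicit false

namespace Pool.Agent.Results.MP_4d0966_ag.PlanesParity

variable {A : Type*} [AddCommGroup A]

/-- For a smooth cubic fourfold `X` let `A` be the lattice `H²,²(X, ℤ)` with the intersection form
`B`, and let `h` be the square of the hyperplane class. Then `ℤ × A` with the following form is the
numerical K-group of the Kuznetsov component of `X`: its basis vector `λ₂ = (1, 0)` has square `2`,
`(λ₂, T) = h · T` and `(T, T') = (h · T) (h · T') - T · T'`. The vector `λ₁ = h - 2 λ₂` is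
orthogonal to `A`, `(λ₁, λ₁) = 2` and `(λ₁, λ₂) = -1`. -/
def mukai (B : A →ₗ[ℤ] A →ₗ[ℤ] ℤ) (h : A) (v w : ℤ × A) : ℤ :=
  2 * v.1 * w.1 + v.1 * B h w.2 + w.1 * B h v.2 + B h v.2 * B h w.2 - B v.2 w.2

/-- The criterion of Hassett and Kuznetsov: there is a hyperbolic plane `⟨e, f⟩`. -/
def HassettKuznetsov (B : A →ₗ[ℤ] A →ₗ[ℤ] ℤ) (h : A) : Prop :=
  ∃ e f : ℤ × A, mukai B h e e = 0 ∧ mukai B h f f = 0 ∧ mukai B h e f = 1

/-- The criterion of Galkin and Shinder: there is an isotropic vector `w` with `(w, λ₁) = 1`. -/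
def GalkinShinder (B : A →ₗ[ℤ] A →ₗ[ℤ] ℤ) (h : A) : Prop :=
  ∃ w : ℤ × A, mukai B h w w = 0 ∧ mukai B h w (-2, h) = 1

/-- The polarised discriminant form `3 S · T - (h · S) (h · T)`. -/
private def dd (B : A →ₗ[ℤ] A →ₗ[ℤ] ℤ) (h : A) (S T : A) : ℤ := 3 * B S T - B h S * B h T

private lemma dd_add_left (B : A →ₗ[ℤ] A →ₗ[ℤ] ℤ) (h S S' T : A) :
    dd B h (S + S') T = dd B h S T + dd B h S' T := by
  unfold dd
  simp only [map_add, LinearMap.add_apply]
  ring

private lemma dd_comm {B : A →ₗ[ℤ] A →ₗ[ℤ] ℤ} (hs : ∀ x y, B x y = B y x) (h S T : A) :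
    dd B h S T = dd B h T S := by
  unfold dd
  rw [hs S T]
  ring

private lemma dd_neg_left (B : A →ₗ[ℤ] A →ₗ[ℤ] ℤ) (h S T : A) :
    dd B h (-S) T = -dd B h S T := by
  unfold dd
  simp only [map_neg, LinearMap.neg_apply]
  ring

private lemma dd_smul_left (B : A →ₗ[ℤ] A →ₗ[ℤ] ℤ) (h S T : A) (m : ℤ) :
    dd B h (m • S) T = m * dd B h S T := by
  unfold dd
  simp only [map_smul, LinearMap.smul_apply, smul_eq_mul]
  ring

/-- discriminants with `d ≡ 2 mod 4` cannot come from generators with `d ≡ 0 mod 4` and even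
mixed products -/
private lemma all_even {B : A →ₗ[ℤ] A →ₗ[ℤ] ℤ} (hs : ∀ x y, B x y = B y x) {h : A} {G : Set A}
    (h2 : ∀ x ∈ G, ∀ y ∈ G, 2 ∣ dd B h x y) (h4 : ∀ x ∈ G, 4 ∣ dd B h x x)
    (hgen : ∀ x : A, ∃ m : ℤ, Odd m ∧ m • x ∈ AddSubgroup.closure G) :
    (∀ x y, 2 ∣ dd B h x y) ∧ ∀ x, 4 ∣ dd B h x x := by
  have zl : ∀ T, dd B h 0 T = 0 := by
    intro T
    unfold dd
    simp
  have a1 : ∀ g ∈ G, ∀ y ∈ AddSubgroup.closure G, 2 ∣ dd B h y g := by
    intro g hg y hy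
    induction hy using AddSubgroup.closure_induction with
    | mem x hx => exact h2 x hx g hg
    | zero => rw [zl]; exact dvd_zero _
    | add x y _ _ hx hy => rw [dd_add_left]; exact dvd_add hx hy
    | neg x _ hx => rw [dd_neg_left]; exact (dvd_neg).2 hx
  have a2 : ∀ x ∈ AddSubgroup.closure G, ∀ y ∈ AddSubgroup.closure G, 2 ∣ dd B h x y := by
    intro x hx y hy
    induction hx using AddSubgroup.closure_induction with
    | mem x hx => rw [dd_comm hs]; exact a1 x hx y hy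
    | zero => rw [zl]; exact dvd_zero _
    | add x z _ _ hx hz => rw [dd_add_left]; exact dvd_add hx hz
    | neg x _ hx => rw [dd_neg_left]; exact (dvd_neg).2 hx
  have a3 : ∀ x ∈ AddSubgroup.closure G, 4 ∣ dd B h x x := by
    intro x hx
    induction hx using AddSubgroup.closure_induction with
    | mem x hx => exact h4 x hx
    | zero => rw [zl]; exact dvd_zero _
    | add x y hx' hy' hx hy =>
      have e1 : dd B h (x + y) (x + y) = dd B h x x + dd B h y y + 2 * dd B h x y := by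
        rw [dd_add_left, dd_comm hs h x, dd_comm hs h y, dd_add_left, dd_add_left,
          dd_comm hs h y x]
        ring
      obtain ⟨c, hc⟩ := a2 x hx' y hy'
      rw [e1, hc]
      exact dvd_add (dvd_add hx hy) ⟨c, by ring⟩
    | neg x _ hx =>
      rw [dd_neg_left, dd_comm hs, dd_neg_left, neg_neg]
      exact hx
  constructor
  · intro x y
    obtain ⟨m, hm, hmx⟩ := hgen x
    obtain ⟨n, hn, hny⟩ := hgen y
    have e1 := a2 _ hmx _ hny
    rw [dd_smul_left, dd_comm hs, dd_smul_left, dd_comm hs] at e1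
    rcases Int.prime_two.dvd_mul.1 e1 with e2 | e2
    · exact absurd hm (Int.not_odd_iff_even.2 (even_iff_two_dvd.2 e2))
    · rcases Int.prime_two.dvd_mul.1 e2 with e3 | e3
      · exact absurd hn (Int.not_odd_iff_even.2 (even_iff_two_dvd.2 e3))
      · exact e3
  · intro x
    obtain ⟨m, hm, hmx⟩ := hgen x
    have e1 := a3 _ hmx
    rw [dd_smul_left, dd_comm hs, dd_smul_left] at e1
    obtain ⟨c, hc⟩ := hm
    have e2 : m * (m * dd B h x x) = 4 * ((c ^ 2 + c) * dd B h x x) + dd B h x x := by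
      rw [hc]
      ring
    rw [e2] at e1
    exact (Int.dvd_add_right ⟨_, rfl⟩).1 e1

private lemma even_of {a x : ℤ} (h : 2 ∣ 3 * a ^ 2 + 3 * a * x + x ^ 2) : 2 ∣ a ∧ 2 ∣ x := by
  rcases Int.even_or_odd' a with ⟨c, rfl | rfl⟩ <;> rcases Int.even_or_odd' x with ⟨d, rfl | rfl⟩
  · exact ⟨⟨c, rfl⟩, ⟨d, rfl⟩⟩
  · exfalso
    have : 3 * (2 * c) ^ 2 + 3 * (2 * c) * (2 * d + 1) + (2 * d + 1) ^ 2 =
      2 * (6 * c ^ 2 + 6 * c * d + 3 * c + 2 * d ^ 2 + 2 * d) + 1 := by ring
    omega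
  · exfalso
    have : 3 * (2 * c + 1) ^ 2 + 3 * (2 * c + 1) * (2 * d) + (2 * d) ^ 2 =
      2 * (6 * c ^ 2 + 6 * c + 1 + 6 * c * d + 3 * d + 2 * d ^ 2) + 1 := by ring
    omega
  · exfalso
    have : 3 * (2 * c + 1) ^ 2 + 3 * (2 * c + 1) * (2 * d + 1) + (2 * d + 1) ^ 2 =
      2 * (6 * c ^ 2 + 9 * c + 3 + 6 * c * d + 5 * d + 2 * d ^ 2) + 1 := by ring
    omega

private lemma not_HK {B : A →ₗ[ℤ] A →ₗ[ℤ] ℤ} {h : A}
    (h2 : ∀ x y, 2 ∣ dd B h x y) (h4 : ∀ x, 4 ∣ dd B h x x) : ¬ HassettKuznetsov B h := by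
  have key : ∀ v : ℤ × A, mukai B h v v = 0 → 2 ∣ v.1 ∧ 2 ∣ B h v.2 := by
    intro v hv
    apply even_of
    have e1 := h4 v.2
    unfold dd at e1
    unfold mukai at hv
    obtain ⟨c, hc⟩ := e1
    have e2 : 2 * (3 * v.1 ^ 2 + 3 * v.1 * B h v.2 + B h v.2 ^ 2) = 4 * c := by
      linear_combination 3 * hv + hc
    exact ⟨c, by linarith⟩
  rintro ⟨e, f, he, hf, hef⟩
  obtain ⟨⟨a, ha⟩, ⟨x, hx⟩⟩ := key e he
  obtain ⟨⟨b, hb⟩, ⟨y, hy⟩⟩ := key f hf
  have e1 := h2 e.2 f.2
  unfold dd at e1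
  unfold mukai at hef
  rw [ha, hb, hx, hy] at hef
  rw [hx, hy] at e1
  obtain ⟨c, hc⟩ := e1
  have e2 : (3 : ℤ) = 2 * (12 * a * b + 6 * a * y + 6 * b * x + 4 * x * y - c) := by
    linear_combination -3 * hef - hc
  omega

private lemma GS_of_plane {B : A →ₗ[ℤ] A →ₗ[ℤ] ℤ} (hs : ∀ x y, B x y = B y x) {h : A}
    (hh : B h h = 3) (hpar : ∀ T, Even (B T T - B h T)) {P : A} (hP : B P P = 3 ∧ B h P = 1)
    {T : A} (hT : Odd (B T (h - P))) : GalkinShinder B h := by
  obtain ⟨r, hr⟩ := hpar T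
  obtain ⟨q, hq⟩ := hT
  rw [map_sub, hs T h, hs T P] at hq
  -- the discriminant of `T` is even
  obtain ⟨e, he⟩ : ∃ e, 3 * B T T - B h T ^ 2 = 2 * e := by
    obtain ⟨c, hc⟩ : ∃ c, B h T * (B h T - 1) = 2 * c := by
      rcases Int.even_or_odd' (B h T) with ⟨c, hc | hc⟩
      · exact ⟨c * (B h T - 1), by rw [hc]; ring⟩
      · exact ⟨B h T * c, by rw [hc]; ring⟩
    exact ⟨3 * r + B h T - c, by linear_combination 3 * hr - hc⟩
  obtain ⟨y, s, hy, hys⟩ : ∃ y s : ℤ, y ^ 2 = 1 ∧ (3 * B P T - B h T) * y = 4 * s + 3 := by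
    rcases Int.even_or_odd' (B P T - q) with ⟨c, hc | hc⟩
    · exact ⟨1, c - 1, by norm_num, by linarith⟩
    · exact ⟨-1, -c - 1, by norm_num, by linarith⟩
  -- a class with discriminant `2 (n ² + n + 1)`
  obtain ⟨x, hx⟩ : ∃ x : ℤ, x = s ^ 2 + s + 1 - e := ⟨_, rfl⟩
  obtain ⟨n, hn⟩ : ∃ n : ℤ, n = 2 * x + s := ⟨_, rfl⟩
  obtain ⟨S, hS⟩ : ∃ S : A, S = x • P + y • T := ⟨_, rfl⟩
  have hhS : B h S = x + y * B h T := by
    rw [hS]
    simp only [map_add, map_smul, smul_eq_mul, hP.2]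
    ring
  have hSS : B S S = 3 * x ^ 2 + 2 * x * y * B P T + y ^ 2 * B T T := by
    rw [hS]
    simp only [map_add, map_smul, smul_eq_mul, LinearMap.add_apply, LinearMap.smul_apply, hP.1,
      hs T P]
    ring
  have hd : 3 * B S S - B h S ^ 2 = 2 * (n ^ 2 + n + 1) := by
    rw [hSS, hhS, hn]
    linear_combination 2 * x * hys + y ^ 2 * he + 2 * e * hy + 2 * hx
  -- a multiple of `h` is added
  have key : ∃ c : ℤ, B h S + 3 * c = n + 2 ∨ B h S + 3 * c = 1 - n := by
    have h3 : (3 : ℤ) ∣ (B h S - (n - 1)) * (B h S + (n - 1)) :=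
      ⟨B S S - n ^ 2 - 1, by linear_combination -hd⟩
    rcases Int.prime_three.dvd_mul.1 h3 with ⟨c, hc⟩ | ⟨c, hc⟩
    · exact ⟨1 - c, Or.inl (by linarith)⟩
    · exact ⟨-c, Or.inr (by linarith)⟩
  obtain ⟨c, hc⟩ := key
  obtain ⟨X, hX⟩ : ∃ X, X = B h S + 3 * c := ⟨_, rfl⟩
  have hX2 : X ^ 2 + 2 * (n ^ 2 + n + 1) = 3 * (X ^ 2 - 2 * X + 2) := by
    rcases hc with hc | hc
    · rw [hX, hc]
      ring
    · rw [hX, hc]
      ring
  refine ⟨(-1, S + c • h), ?_, ?_⟩
  · have e1 : B h (S + c • h) = X := by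
      rw [hX]
      simp only [map_add, map_smul, smul_eq_mul, hh]
      ring
    have e2 : B (S + c • h) (S + c • h) = B S S + 2 * c * B h S + 3 * c ^ 2 := by
      simp only [map_add, map_smul, smul_eq_mul, LinearMap.add_apply, LinearMap.smul_apply, hh,
        hs S h]
      ring
    have e3 : B (S + c • h) (S + c • h) = X ^ 2 - 2 * X + 2 := by
      apply Int.eq_of_mul_eq_mul_left (show (3 : ℤ) ≠ 0 by norm_num)
      rw [← hX2, ← hd, e2, hX]
      ring
    unfold mukai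
    simp only
    rw [e1, e3]
    ring
  · unfold mukai
    simp only
    rw [hs (S + c • h) h, hh]
    ring

private lemma HK_of_GS {B : A →ₗ[ℤ] A →ₗ[ℤ] ℤ} (hs : ∀ x y, B x y = B y x) {h : A}
    (hh : B h h = 3) (hG : GalkinShinder B h) : HassettKuznetsov B h := by
  obtain ⟨⟨a, T⟩, h1, h2⟩ := hG
  refine ⟨(a, T), (-2 - a, h - T), h1, ?_, ?_⟩
  · unfold mukai at h1 h2 ⊢
    simp only at h1 h2 ⊢
    simp only [map_sub, LinearMap.sub_apply, hh, hs T h] at h1 h2 ⊢
    linear_combination h1 - 2 * h2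
  · unfold mukai at h1 h2 ⊢
    simp only at h1 h2 ⊢
    simp only [map_sub, hh, hs T h] at h1 h2 ⊢
    linear_combination h2 - h1

/-- `A` is an abelian group with a symmetric bilinear form `B`, `h` has square `3` and is
characteristic; the `P i` have the products `P i · P i = 3`, `h · P i = 1` of the class of a plane;
the classes `T j` have discriminants `3 T j · T j - (h · T j) ²` divisible by `4` and even mixed
discriminants, and every element of `A` has an odd multiple in the subgroup which is generated by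
`h`, the `P i` and the `T j`. Then the criterion of Galkin and Shinder and the criterion of Hassett
and Kuznetsov are both equivalent to: some `h - P i` (the class of the residual quadric
surfaces) has an odd product with some element of `A`. If there are no `T j` and the products
of the planes are `0`, `1`, `-1`, `3` this means that two of the planes have product `0`. -/
theorem result (B : A →ₗ[ℤ] A →ₗ[ℤ] ℤ) (hsymm : ∀ S T, B S T = B T S) (h : A) (hh : B h h = 3)
    (hpar : ∀ T, Even (B T T - B h T)) {I J : Type*} (P : I → A) (T : J → A)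
    (hP : ∀ i, B (P i) (P i) = 3 ∧ B h (P i) = 1)
    (hT : ∀ j, 4 ∣ 3 * B (T j) (T j) - B h (T j) ^ 2)
    (hTT : ∀ j j', 2 ∣ 3 * B (T j) (T j') - B h (T j) * B h (T j'))
    (hgen : ∀ S : A, ∃ m : ℤ, Odd m ∧
      m • S ∈ AddSubgroup.closure ({h} ∪ Set.range P ∪ Set.range T)) :
    (GalkinShinder B h ↔ ∃ i S, Odd (B S (h - P i))) ∧
    (HassettKuznetsov B h ↔ ∃ i S, Odd (B S (h - P i))) ∧
    (IsEmpty J → (∀ i i', B (P i) (P i') ∈ ({0, 1, -1, 3} : Set ℤ)) →
      (GalkinShinder B h ↔ ∃ i i', B (P i) (P i') = 0)) := by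
  have hGS : (∃ i S, Odd (B S (h - P i))) → GalkinShinder B h := by
    rintro ⟨i, S, hS⟩
    exact GS_of_plane hsymm hh hpar (hP i) hS
  have hHK := HK_of_GS hsymm hh
  have dh : ∀ S, dd B h h S = 0 := by
    intro S
    unfold dd
    rw [hh]
    ring
  have dP : ∀ i, dd B h (P i) (P i) = 8 := by
    intro i
    unfold dd
    rw [(hP i).1, (hP i).2]
    norm_num
  have hno : HassettKuznetsov B h → ∃ i S, Odd (B S (h - P i)) := by
    intro hK
    by_contra hcon
    push Not at hcon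
    have hPS : ∀ i S, 2 ∣ dd B h (P i) S := by
      intro i S
      obtain ⟨c, hc⟩ := Int.not_odd_iff_even.1 (hcon i S)
      rw [map_sub, hsymm S h, hsymm S (P i)] at hc
      refine ⟨B (P i) S - c, ?_⟩
      unfold dd
      rw [(hP i).2]
      linear_combination -hc
    have h3 := all_even hsymm (h := h) (G := {h} ∪ Set.range P ∪ Set.range T) ?_ ?_ hgen
    · exact not_HK h3.1 h3.2 hK
    · rintro x ((rfl | ⟨i, rfl⟩) | ⟨j, rfl⟩) y hy
      · rw [dh]
        exact dvd_zero _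
      · exact hPS i y
      · rcases hy with (rfl | ⟨i, rfl⟩) | ⟨j', rfl⟩
        · rw [dd_comm hsymm, dh]
          exact dvd_zero _
        · rw [dd_comm hsymm]
          exact hPS i _
        · exact hTT j j'
    · rintro x ((rfl | ⟨i, rfl⟩) | ⟨j, rfl⟩)
      · rw [dh]
        exact dvd_zero _
      · rw [dP]
        norm_num
      · have h4 := hT j
        unfold dd
        rwa [← pow_two]
  refine ⟨⟨fun hG => hno (hHK hG), hGS⟩, ⟨hno, fun hc => hHK (hGS hc)⟩, ?_⟩
  intro hJ hPP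
  constructor
  · intro hG
    by_contra hcon
    push Not at hcon
    have hPS : ∀ i i', 2 ∣ dd B h (P i) (P i') := by
      intro i i'
      unfold dd
      rw [(hP i).2, (hP i').2]
      rcases hPP i i' with h0 | h0 | h0 | h0
      · exact absurd h0 (hcon i i')
      · rw [h0]; norm_num
      · rw [h0]; norm_num
      · rw [h0]; norm_num
    have h3 := all_even hsymm (h := h) (G := {h} ∪ Set.range P ∪ Set.range T) ?_ ?_ hgen
    · exact not_HK h3.1 h3.2 (hHK hG)
    · rintro x ((rfl | ⟨i, rfl⟩) | ⟨j, rfl⟩) y hy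
      · rw [dh]
        exact dvd_zero _
      · rcases hy with (rfl | ⟨i', rfl⟩) | ⟨j', rfl⟩
        · rw [dd_comm hsymm, dh]
          exact dvd_zero _
        · exact hPS i i'
        · exact hJ.elim j'
      · exact hJ.elim j
    · rintro x ((rfl | ⟨i, rfl⟩) | ⟨j, rfl⟩)
      · rw [dh]
        exact dvd_zero _
      · rw [dP]
        norm_num
      · exact hJ.elim j
  · rintro ⟨i, i', h0⟩
    apply hGS
    refine ⟨i, P i', ?_⟩
    rw [map_sub, hsymm (P i') h, (hP i').2, hsymm (P i') (P i), h0]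
    norm_num

end Pool.Agent.Results.MP_4d0966_ag.PlanesParity
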