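import Pool.Agent.MP4d0966.R4Class

set_option autoImplicit false

open scoped NumberTheorySymbols

namespace Pool.Agent.Results.MP_4d0966_ag.RankFour

open Pool.Agent.MP4d0966 Module

/-- The lattice-theoretic form of the criterion of Hassett and Kuznetsov (Addington and Thomas):
the lattice contains a hyperbolic plane `⟨e, f⟩`. -/
def HassettKuznetsov {N : Type*} [AddCommGroup N] (B : N →ₗ[ℤ] N →ₗ[ℤ] ℤ) : Prop :=
  ∃ e f : N, B e e = 0 ∧ B f f = 0 ∧ B e f = 1

/-- The lattice-theoretic form of the criterion of Galkin and Shinder (Addington): there is an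
isotropic vector `w` with `(w, l1) = 1`. -/
def GalkinShinder {N : Type*} [AddCommGroup N] (B : N →ₗ[ℤ] N →ₗ[ℤ] ℤ) (l1 : N) : Prop :=
  ∃ w : N, B w w = 0 ∧ B w l1 = 1

/-- The discriminant (the determinant of the Gram matrix) of a lattice of rank `4`. -/
noncomputable def disc {N : Type*} [AddCommGroup N] (B : N →ₗ[ℤ] N →ₗ[ℤ] ℤ)
    (b : Basis (Fin 4) ℤ N) : ℤ :=
  (Matrix.of fun i j => B (b i) (b j)).det

/-- `p` is a frozen prime: `p` is `1` modulo `12`, the form on `N / pN` has a radical of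
dimension at least `2` (it contains the independent classes of `u` and `v`), and the quadratic
form `q(c) = (c, c) / 2` takes only squares modulo `p` as values on the orthogonal complement
of `l1`. -/
def Frozen {N : Type*} [AddCommGroup N] (B : N →ₗ[ℤ] N →ₗ[ℤ] ℤ) (l1 : N) (p : ℕ) : Prop :=
  p % 12 = 1 ∧
  (∃ u v : N, (∀ x, (p : ℤ) ∣ B u x) ∧ (∀ x, (p : ℤ) ∣ B v x) ∧
    ∀ (i j : ℤ) (x : N), i • u + j • v = (p : ℤ) • x → (p : ℤ) ∣ i ∧ (p : ℤ) ∣ j) ∧
  ∀ c : N, B c l1 = 0 → ∃ s : ℤ, (p : ℤ) ∣ B c c - 2 * s ^ 2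

/-- The reciprocity obstruction. Here `n` generates the ideal `(w0, N)`. The discriminant is
`d³ t²` where `d > 1` is a squarefree product of frozen primes, and for every vector `w` which
is a solution modulo `d` of `(w, w) = 0`, `(w, l1) = 1`, the number `X = (w, w0) / n` has
Jacobi symbol `(X / d) = -1`. -/
def Obstruction {N : Type*} [AddCommGroup N] (B : N →ₗ[ℤ] N →ₗ[ℤ] ℤ)
    (b : Basis (Fin 4) ℤ N) (l1 w0 : N) (n : ℤ) : Prop :=
  ∃ (d : ℕ) (t : ℤ), 1 < d ∧ Squarefree d ∧ disc B b = (d : ℤ) ^ 3 * t ^ 2 ∧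
    (∀ p : ℕ, p.Prime → p ∣ d → Frozen B l1 p) ∧
    ∀ (w : N) (X : ℤ), (d : ℤ) ∣ B w w → (d : ℤ) ∣ B w l1 - 1 → B w w0 = n * X → J(X | d) = -1

/-- Let `N` be a nondegenerate even lattice of rank `4`, let `l1, l2` be vectors of `N` with
`(l1, l1) = (l2, l2) = 2` and `(l1, l2) = -1`, and let `w0` be a nonzero isotropic vector
orthogonal to `l1`; let `n` be a generator of the ideal `(w0, N)`. Then the criterion of Galkin
and Shinder holds if and only if the criterion of Hassett and Kuznetsov holds and there is no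
reciprocity obstruction. -/
theorem result {N : Type*} [AddCommGroup N] (b : Basis (Fin 4) ℤ N)
    (B : N →ₗ[ℤ] N →ₗ[ℤ] ℤ) (hsymm : ∀ x y, B x y = B y x) (heven : ∀ x, Even (B x x))
    (hnd : ∀ x, (∀ y, B x y = 0) → x = 0)
    (l1 l2 w0 : N) (h11 : B l1 l1 = 2) (h22 : B l2 l2 = 2) (h12 : B l1 l2 = -1)
    (hw0 : w0 ≠ 0) (hww : B w0 w0 = 0) (hwl : B w0 l1 = 0)
    (n : ℤ) (hn : ∀ x, n ∣ B w0 x) (hn' : ∃ z, B w0 z = n) :
    GalkinShinder B l1 ↔ HassettKuznetsov B ∧ ¬ Obstruction B b l1 w0 n := by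
  have : Module.Free ℤ N := Module.Free.of_basis b
  have : Module.Finite ℤ N := Module.Finite.of_basis b
  have hN : Module.finrank ℤ N = 4 := by
    rw [Module.finrank_eq_card_basis b, Fintype.card_fin]
  have hq : ∀ x, B x x = 2 * (B x x / 2) := by
    intro x
    obtain ⟨r, hr⟩ := heven x
    omega
  let L : EvenForm N := ⟨B, fun x => B x x / 2, hsymm, hq⟩
  have hBq : ∀ x, B x x = 2 * L.q x := hq
  have hq0 : ∀ x, B x x = 0 → L.q x = 0 := by
    intro x hx
    have := hBq x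
    omega
  have hl1 : L.q l1 = 1 := by
    have := hBq l1
    omega
  have hl2 : L.q l2 = 1 := by
    have := hBq l2
    omega
  have hlw : L.B l1 w0 = 0 := (hsymm l1 w0).trans hwl
  constructor
  · rintro ⟨w, hw, hw1⟩
    refine ⟨⟨w, l1 - w, hw, ?_, ?_⟩, ?_⟩
    · have h1 := hsymm l1 w
      simp only [map_sub, LinearMap.sub_apply, h11, hw, hw1] at h1 ⊢
      rw [h1]
      norm_num
    · rw [map_sub, hw1, hw, sub_zero]
    · rintro ⟨d, t, hd1, hdsq, hdet, hdp, hob⟩
      refine R4.not_of_obstruction (L := L) hN hnd hl1 hw0 (hq0 w0 hww) hlw hn hn' b hd1 hdsq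
        hdet (fun p hp hpd => ?_) ?_ ⟨w, hq0 w hw, hw1⟩
      · have := (hdp p hp hpd).1
        omega
      · intro w' X h1 h2 h3
        refine hob w' X ?_ h2 h3
        rw [hBq]
        exact h1.mul_left 2
  · rintro ⟨⟨e, f, he, hf, hef⟩, hob⟩
    by_contra hno
    apply hob
    have hno' : ¬ ∃ w, L.q w = 0 ∧ L.B w l1 = 1 := by
      rintro ⟨w, hw, hw1⟩
      exact hno ⟨w, by rw [hBq, hw, mul_zero], hw1⟩
    obtain ⟨d, t, hd1, hdsq, hdet, hdp, hJ⟩ := R4.obstruction_of_not (L := L) hN hnd hl1 hl2 h12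
      hw0 (hq0 w0 hww) hlw (hq0 e he) (hq0 f hf) hef hno' hn hn' b
    have hd2 : IsCoprime (d : ℤ) 2 := by
      have hd4 : d % 4 = 1 := R4.mod_four_of_primes d hdsq.ne_zero fun p hp hpd => by
        have := (hdp p hp hpd).1
        omega
      refine ⟨1, -(d / 2 : ℕ), ?_⟩
      have : d = 2 * (d / 2) + 1 := by omega
      push_cast
      omega
    refine ⟨d, t, hd1, hdsq, hdet, ?_, ?_⟩
    · intro p hp hpd
      obtain ⟨h1, h2, h3⟩ := hdp p hp hpd
      refine ⟨h1, h3, fun c hc => ?_⟩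
      obtain ⟨s, hs⟩ := h2 c hc
      refine ⟨s, ?_⟩
      have h4 : B c c - 2 * s ^ 2 = 2 * (L.q c - s ^ 2) := by
        rw [hBq]
        ring
      rw [h4]
      exact hs.mul_left 2
    · intro w X h1 h2 h3
      refine hJ w X ?_ h2 h3
      rw [hBq] at h1
      exact hd2.dvd_of_dvd_mul_left h1

end Pool.Agent.Results.MP_4d0966_ag.RankFour
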